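import Pool.Agent.Helper88.SlabVolume

set_option autoImplicit false

open MeasureTheory

namespace Pool.Agent.Results.MP_bec814_gt.CubeSlabs

/-- The slab `Sl(a,t)` of the cube `[-1,1]^n` of half-width `t` in direction `a`. -/
def Sl (n : ℕ) (a : EuclideanSpace ℝ (Fin n)) (t : ℝ) : Set (EuclideanSpace ℝ (Fin n)) :=
  {x | (∀ i, |x i| ≤ 1) ∧ |inner ℝ x a| ≤ t}

/-- For every `n ≥ 2` and every `0 < t ≤ 2√2 - 2`, the minimum of the volume of the slab
`Sl(a,t)` over unit vectors `a` exists and is the volume of the slab in direction of the first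
coordinate vector, `V(f₁,t) = 2^n t`. -/
theorem result (n : ℕ) (hn : 2 ≤ n) (t : ℝ) (ht0 : 0 < t) (ht : t ≤ 2 * Real.sqrt 2 - 2) :
    IsLeast ((fun a : EuclideanSpace ℝ (Fin n) => volume (Sl n a t)) '' Metric.sphere 0 1)
      (volume (Sl n (EuclideanSpace.single (⟨0, by omega⟩ : Fin n) (1 : ℝ)) t)) ∧
    volume (Sl n (EuclideanSpace.single (⟨0, by omega⟩ : Fin n) (1 : ℝ)) t) =
      ENNReal.ofReal (2 ^ n * t) := by
  have hT : t ≤ Helper88.Slab.T0 := ht
  have ht1 : t ≤ 1 := by
    have := Helper88.Slab.T0_bounds.2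
    linarith
  have key : ∀ a : EuclideanSpace ℝ (Fin n),
      volume (Sl n a t) = 2^n * ENNReal.ofReal (Helper88.Slab.prob (fun i => a i) t) :=
    fun a => Helper88.Slab.volume_slab a t
  have hf : volume (Sl n (EuclideanSpace.single (⟨0, by omega⟩ : Fin n) (1 : ℝ)) t) =
      2^n * ENNReal.ofReal t := by
    rw [key]
    congr 2
    have h := Helper88.Slab.prob_single (⟨0, by omega⟩ : Fin n) ht0 ht1
    convert h using 2
    ext i
    simp [Pi.single_apply]
  refine ⟨⟨⟨EuclideanSpace.single (⟨0, by omega⟩ : Fin n) (1 : ℝ), by simp, rfl⟩, ?_⟩, ?_⟩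
  · rintro _ ⟨a, ha, rfl⟩
    simp only
    rw [hf, key]
    have hsum : ∑ j, a j ^ 2 = 1 := by
      have h1 : ‖a‖ = 1 := by simpa using ha
      have h2 := EuclideanSpace.norm_sq_eq a
      rw [h1] at h2
      simp only [Real.norm_eq_abs, sq_abs, one_pow] at h2
      exact h2.symm
    gcongr
    exact Helper88.Slab.prob_ge_t (fun i => a i) hsum ht0 hT
  · rw [hf, ENNReal.ofReal_mul (by positivity), ENNReal.ofReal_pow (by norm_num)]
    simp

end Pool.Agent.Results.MP_bec814_gt.CubeSlabs
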